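import Pool.Agent.Lib.MP_2c613a_co.Lower

set_option autoImplicit false

/-!
# Exact values for `3 ≤ r ≤ 6` when every side has at least two vertices (MP_2c613a_co, Q1)
-/

namespace Pool.Agent.Results.MP_2c613a_co.ExactValues

open Pool.Agent.Lib.MP_2c613a_co

/-- **Exact values in the non-degenerate case.** Let `f₂ r` be the supremum of `τ*(H)` over the
intersecting `r`-partite hypergraphs `H` that have a non-trivial vertex cover and all of whose sides
have at least two vertices. Then `f₂ 3 = 2`, `f₂ 4 = 5`, `f₂ 5 = 6` and `f₂ 6 = 8`. -/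
theorem result : f₂ 3 = 2 ∧ f₂ 4 = 5 ∧ f₂ 5 = 6 ∧ f₂ 6 = 8 :=
  ⟨le_antisymm (f₂_le 3 (by norm_num)) f₂_three, le_antisymm (f₂_le 4 (by norm_num)) f₂_four,
    le_antisymm (f₂_le 5 (by norm_num)) f₂_five, le_antisymm (f₂_le 6 (by norm_num)) f₂_six⟩

end Pool.Agent.Results.MP_2c613a_co.ExactValues
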