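import Pool.Agent.Lib.MP_2c613a_co.Lower

set_option autoImplicit false

/-!
# An upper bound when every side has at least two vertices (MP_2c613a_co, Q1)
-/

namespace Pool.Agent.Results.MP_2c613a_co.UpperBound

open Pool.Agent.Lib.MP_2c613a_co

/-- **Upper bound in the non-degenerate case.** Let `r ≥ 3`. Every intersecting `r`-partite
hypergraph all of whose sides have at least two vertices and which has a non-trivial vertex cover
has one with at most `2 r - 4` vertices, or at most `5` vertices if `r = 4`. -/
theorem result (r : ℕ) (hr : 3 ≤ r) :
    f₂ r ≤ ((if r = 4 then 5 else 2 * r - 4 : ℕ) : ℕ∞) :=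
  f₂_le r hr

end Pool.Agent.Results.MP_2c613a_co.UpperBound
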