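import Pool.Agent.Lib.MP_2c613a_co.Defs

set_option autoImplicit false

/-!
# Small non-trivial vertex covers in intersecting `r`-partite hypergraphs (MP_2c613a_co, Q1)

We determine `f(r)` as defined in the problem: there is no hypergraph to consider for `r = 2`, and
`f(r) = ∞` for every `r ≥ 3`.
-/

namespace Pool.Agent.Results.MP_2c613a_co.ValueOfF

open Pool.Agent.Lib.MP_2c613a_co RPartiteHypergraph

theorem no_cover_two (H : RPartiteHypergraph 2) (hI : H.Intersecting) :
    ¬ ∃ C, H.IsNontrivialCover C := by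
  classical
  rintro ⟨C, hC, -, hs⟩
  -- a vertex `a` of side `0` and a vertex `b` of side `1`, both outside `C`
  have h0 := hs 0
  have h1 := hs 1
  rw [Set.not_subset] at h0 h1
  obtain ⟨a, ha, haC⟩ := h0
  obtain ⟨b, hb, hbC⟩ := h1
  simp only [Finset.mem_coe] at haC hbC
  change H.side a = 0 at ha
  change H.side b = 1 at hb
  obtain ⟨e, he, hae⟩ := H.mem_edge a
  obtain ⟨e', he', hbe'⟩ := H.mem_edge b
  -- the vertex of `e` in `C`
  obtain ⟨v, hvC, hve⟩ := hC e he
  obtain ⟨w, hwC, hwe'⟩ := hC e' he'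
  obtain ⟨z, hze, hze'⟩ := hI e he e' he'
  have hv : H.side v = 1 := by
    have hne : H.side v ≠ 0 := by
      intro h
      have := (H.edge_side e he 0).unique ⟨hve, h⟩ ⟨hae, ha⟩
      exact haC (this ▸ hvC)
    omega
  have hw : H.side w = 0 := by
    have hne : H.side w ≠ 1 := by
      intro h
      have := (H.edge_side e' he' 1).unique ⟨hwe', h⟩ ⟨hbe', hb⟩
      exact hbC (this ▸ hwC)
    omega
  have hz : H.side z = 0 ∨ H.side z = 1 := by omega
  rcases hz with hz | hz
  · have h2 := (H.edge_side e he 0).unique ⟨hze, hz⟩ ⟨hae, ha⟩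
    have h3 := (H.edge_side e' he' 0).unique ⟨hze', hz⟩ ⟨hwe', hw⟩
    exact haC (by rw [← h2, h3]; exact hwC)
  · have h2 := (H.edge_side e he 1).unique ⟨hze, hz⟩ ⟨hve, hv⟩
    have h3 := (H.edge_side e' he' 1).unique ⟨hze', hz⟩ ⟨hbe', hb⟩
    exact hbC (by rw [← h3, h2]; exact hvC)

/-- The vertices of the sun. -/
abbrev SunV (k N : ℕ) : Type := Option (Fin k × Fin N)

/-- The edge `eₙ = {none} ∪ {(j, n) : j}`. -/
def sunEdge (k N : ℕ) (n : Fin N) : Finset (SunV k N) :=
  Finset.univ.filter fun v => ∀ p ∈ v, p.2 = n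

theorem none_mem {k N : ℕ} (n : Fin N) : (none : SunV k N) ∈ sunEdge k N n := by
  simp [sunEdge]

theorem some_mem {k N : ℕ} {n n' : Fin N} {j : Fin k} :
    (some (j, n') : SunV k N) ∈ sunEdge k N n ↔ n' = n := by
  simp [sunEdge]

/-- The hypergraph whose first side is a single vertex, common to all edges, and whose `N` edges
are otherwise disjoint. -/
abbrev sun (k N : ℕ) [NeZero N] : RPartiteHypergraph (k + 1) where
  V := SunV k N
  finite := inferInstance
  side v := v.elim 0 fun p => p.1.succ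
  edges := Finset.univ.image (sunEdge k N)
  edge_side := by
    intro e he i
    obtain ⟨n, -, rfl⟩ := Finset.mem_image.1 he
    refine Fin.cases ?_ (fun j => ?_) i
    · refine ⟨none, ⟨none_mem n, rfl⟩, ?_⟩
      rintro (_ | p) ⟨-, hp⟩
      · rfl
      · exact absurd hp (Fin.succ_ne_zero _)
    · refine ⟨some (j, n), ⟨some_mem.2 rfl, rfl⟩, ?_⟩
      rintro (_ | ⟨j', n'⟩) ⟨hp, hp'⟩
      · exact absurd hp'.symm (Fin.succ_ne_zero _)
      · have h1 : j' = j := Fin.succ_injective _ hp'
        have h2 : n' = n := some_mem.1 hp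
        rw [h1, h2]
  mem_edge := by
    rintro (_ | ⟨j, n⟩)
    · exact ⟨_, Finset.mem_image_of_mem _ (Finset.mem_univ 0), none_mem 0⟩
    · exact ⟨_, Finset.mem_image_of_mem _ (Finset.mem_univ n), some_mem.2 rfl⟩

theorem sun_intersecting (k N : ℕ) [NeZero N] : (sun k N).Intersecting := by
  intro e he e' he'
  obtain ⟨n, -, rfl⟩ := Finset.mem_image.1 he
  obtain ⟨n', -, rfl⟩ := Finset.mem_image.1 he'
  exact ⟨none, none_mem n, none_mem n'⟩

/-- Every non-trivial cover of the sun has at least `N` vertices. -/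
theorem le_card_of_cover (k N : ℕ) [NeZero N] (C : Finset (SunV k N))
    (hC : (sun k N).IsNontrivialCover C) : N ≤ C.card := by
  obtain ⟨hcov, -, hside⟩ := hC
  have hnone : (none : SunV k N) ∉ C := by
    intro h
    apply hside 0
    rintro (_ | p) hp
    · exact h
    · exact absurd hp (Fin.succ_ne_zero _)
  have h1 : ∀ n : Fin N, ∃ j : Fin k, (some (j, n) : SunV k N) ∈ C := by
    intro n
    obtain ⟨v, hvC, hv⟩ := hcov _ (Finset.mem_image_of_mem _ (Finset.mem_univ n))
    rcases v with _ | ⟨j, n'⟩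
    · exact absurd hvC hnone
    · have : n' = n := some_mem.1 hv
      subst this
      exact ⟨j, hvC⟩
  choose j hj using h1
  have h2 : Function.Injective fun n : Fin N => (some (j n, n) : SunV k N) := by
    intro n n' h
    simp only [Option.some.injEq, Prod.mk.injEq] at h
    exact h.2
  calc N = (Finset.univ : Finset (Fin N)).card := by simp
    _ = (Finset.univ.image fun n : Fin N => (some (j n, n) : SunV k N)).card :=
        (Finset.card_image_of_injective _ h2).symm
    _ ≤ C.card := Finset.card_le_card (by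
        intro v hv
        obtain ⟨n, -, rfl⟩ := Finset.mem_image.1 hv
        exact hj n)

/-- The cover consisting of the vertices `(0, 0)` and `(1, n)`, `n ≠ 0`. -/
def sunCover (k N : ℕ) : Finset (SunV (k + 2) (N + 2)) :=
  Finset.univ.filter fun v => ∃ p, v = some p ∧ ((p.1 = 0 ∧ p.2 = 0) ∨ (p.1 = 1 ∧ p.2 ≠ 0))

theorem sun_has_cover (k N : ℕ) : (sun (k + 2) (N + 2)).IsNontrivialCover (sunCover k N) := by
  have hnone : (none : SunV (k + 2) (N + 2)) ∉ sunCover k N := by simp [sunCover]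
  have hsome : ∀ j n, (some (j, n) : SunV (k + 2) (N + 2)) ∈ sunCover k N ↔
      ((j = 0 ∧ n = 0) ∨ (j = 1 ∧ n ≠ 0)) := by simp [sunCover]
  refine ⟨?_, ?_, ?_⟩
  · intro e he
    obtain ⟨n, -, rfl⟩ := Finset.mem_image.1 he
    by_cases hn : n = 0
    · exact ⟨some (0, n), (hsome _ _).2 (Or.inl ⟨rfl, hn⟩), some_mem.2 rfl⟩
    · exact ⟨some (1, n), (hsome _ _).2 (Or.inr ⟨rfl, hn⟩), some_mem.2 rfl⟩
  · intro e he hsub
    obtain ⟨n, -, rfl⟩ := Finset.mem_image.1 he
    exact hnone (hsub (none_mem n))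
  · intro i
    refine Fin.cases ?_ (fun j => ?_) i
    · intro hsub
      exact hnone (@hsub none rfl)
    · intro hsub
      by_cases hj : j = 0
      · have h := (hsome _ _).1 (@hsub (some (j, 1)) rfl)
        rw [hj] at h
        simp at h
      · have h := (hsome _ _).1 (@hsub (some (j, 0)) rfl)
        simp [hj] at h

/-- **Determination of `f(r)`.** No intersecting `2`-partite hypergraph has a non-trivial vertex
cover, and `f(r) = ∞` for every `r ≥ 3`. -/
theorem result :
    (∀ H : RPartiteHypergraph 2, H.Intersecting → ¬ ∃ C, H.IsNontrivialCover C) ∧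
      ∀ r : ℕ, 3 ≤ r → f r = ⊤ := by
  refine ⟨no_cover_two, fun r hr => ?_⟩
  obtain ⟨k, rfl⟩ : ∃ k, r = k + 2 + 1 := ⟨r - 3, by omega⟩
  rw [ENat.eq_top_iff_forall_ge]
  intro N
  have hne : {n | ∃ C, (sun (k + 2) (N + 2)).IsNontrivialCover C ∧ C.card = n}.Nonempty :=
    ⟨_, _, sun_has_cover k N, rfl⟩
  have h1 : N ≤ (sun (k + 2) (N + 2)).tauStar := by
    refine le_csInf hne ?_
    rintro n ⟨C, hC, rfl⟩
    exact (Nat.le_add_right N 2).trans (le_card_of_cover _ _ C hC)
  have h2 : ((sun (k + 2) (N + 2)).tauStar : ℕ∞) ≤ f (k + 2 + 1) :=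
    le_iSup_of_le (sun (k + 2) (N + 2)) (le_iSup_of_le (sun_intersecting _ _)
      (le_iSup_of_le ⟨_, sun_has_cover k N⟩ le_rfl))
  exact (by exact_mod_cast h1 : (N : ℕ∞) ≤ ((sun (k + 2) (N + 2)).tauStar : ℕ∞)).trans h2

end Pool.Agent.Results.MP_2c613a_co.ValueOfF
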